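import Pool.Agent.Helper18.SG.Goals

/-!
# Packet SG G11 (project of helper18, MP_d3128a_ag)

The start of the game.
-/

set_option autoImplicit false

namespace Pool.Agent.Helper5.SG

open Finset Pool.Agent.Helper18.SG

/-- load of the row `0` when the points `c < i` are started in the row `0` -/
theorem lo_start {M S R N : ℕ} {ν ℓ : ℕ → ℕ} (h : Hyp M S R N ν ℓ) {i : ℕ} (hi : i ≤ N) :
    Lo R N ν (fun c => if c < i then 0 else R - 1) (fun _ => R) 0 = ∑ c ∈ range i, ν c := by
  have hR := h.R1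
  have hM := h.M1
  have h1 : ∀ c ∈ range N, nv R (ν c) (if c < i then 0 else R - 1) R 0 =
      if c < i then ν c else 0 := by
    intro c _
    have hν := h.νM c
    by_cases hc : c < i
    · simp only [if_pos hc, nv]
      rw [if_pos (le_refl 0), if_neg (by omega)]
      omega
    · simp only [if_neg hc, nv]
      rw [if_neg (by omega), if_neg (by omega)]
      omega
  unfold Lo
  rw [sum_congr rfl h1, ← sum_filter]
  apply sum_congr _ (fun _ _ => rfl)
  ext c
  simp only [mem_filter, mem_range]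
  omega

/-- the states with the first `i` points started in the row `0` -/
theorem ok_start {M S R N : ℕ} {ν ℓ : ℕ → ℕ} (h : Hyp M S R N ν ℓ) {i : ℕ} (hi : i ≤ N)
    (hs : ∑ c ∈ range i, ν c ≤ ℓ 0) :
    Ok R N ν ℓ 0 i (fun c => if c < i then 0 else R - 1) (fun _ => R) := by
  have hR := h.R1
  have hM := h.M1
  refine ⟨hi, ?_, ?_, ?_, ?_⟩
  · intro c hc
    exact ⟨if_neg (by omega), rfl⟩
  · intro c hc
    simp only [if_pos hc]
    refine ⟨le_refl _, by omega, le_refl _, fun _ => trivial⟩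
  · intro t ht
    omega
  · rw [lo_start h hi]
    exact hs

theorem goalG11 (hG1 : GoalG1) (hG2 : GoalG2) : GoalG11 := by
  intro M S R N ν ℓ h
  have hR := h.R1
  have hM := h.M1
  classical
  have hex : ∃ n, ℓ 0 + 2 ≤ ∑ c ∈ range n, ν c + ν n + ν (n + 1) := by
    refine ⟨ℓ 0, ?_⟩
    have h1 : ∑ c ∈ range (ℓ 0), 1 ≤ ∑ c ∈ range (ℓ 0), ν c := sum_le_sum (fun c _ => h.ν1 c)
    simp only [sum_const, card_range, smul_eq_mul, mul_one] at h1
    have h2 := h.ν1 (ℓ 0)
    have h3 := h.ν1 (ℓ 0 + 1)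
    omega
  obtain ⟨n, hn, hmin⟩ : ∃ n, ℓ 0 + 2 ≤ ∑ c ∈ range n, ν c + ν n + ν (n + 1) ∧
      ∀ k < n, ¬ (ℓ 0 + 2 ≤ ∑ c ∈ range k, ν c + ν k + ν (k + 1)) :=
    ⟨Nat.find hex, Nat.find_spec hex, fun k hk => Nat.find_min hex hk⟩
  have hle : ∀ k ≤ n, ∑ c ∈ range k, ν c ≤ ℓ 0 := by
    intro k hk
    rcases Nat.eq_zero_or_pos k with h0 | h0
    · subst h0
      simp
    · obtain ⟨j, rfl⟩ : ∃ j, k = j + 1 := ⟨k - 1, by omega⟩
      have h1 := hmin j (by omega)
      have h2 := h.ν1 (j + 1)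
      rw [sum_range_succ]
      omega
  have h3 : ∀ i ≤ n, i ≤ N → i + 3 ≤ N := by
    intro i hi hiN
    exact hG2 M S R N ν ℓ 0 i _ _ hG1 h (ok_start h hiN (hle i hi)) (by omega)
  have hnN : n + 3 ≤ N := by
    rcases le_total n N with h4 | h4
    · exact h3 n (le_refl _) h4
    · have := h3 N h4 (le_refl _)
      omega
  have hnN' : n ≤ N := by omega
  refine ⟨n, fun c => if c < n then 0 else R - 1, fun _ => R, ?_⟩
  refine { toOk := ok_start h hnN' (hle n (le_refl _)), D2 := ?_, D1 := ?_, mono := ?_, bat := ?_,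
           hz := ?_, two := ?_, cnt := ?_ }
  · rw [lo_start h hnN']
    have h5 := h.νM n
    have h6 := h.νM (n + 1)
    rw [min_eq_left (by omega), min_eq_left (by omega)]
    exact hn
  · intro h0
    omega
  · intro c c' h7 h8
    simp only [if_pos h8, if_pos (lt_of_le_of_lt h7 h8)]
    exact le_refl _
  · intro t h0 h1
    omega
  · intro c _ h0
    exact absurd rfl h0
  · intro t
    simp
  · intro t h0 h1
    omega

end Pool.Agent.Helper5.SG
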