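import Pool.Agent.Helper52.SG.Goals

/-!
# SG-FTA: the key trick with a weaker hypothesis
-/

set_option autoImplicit false

namespace Pool.Agent.Helper5.SG.FTA

open Subgroup Pool.H83Shunkov Pool.Agent.Helper29.SH

/-- facts on a conjugate `b` of `a` by an element of `N` -/
theorem conj_facts' {G : Type} [Group G] {a : G} {N : Subgroup G} {p : ℕ} (hp : 0 < p)
    (ha : a ^ p = 1) (hN : Inv a N) {x : G} (hx : x ∈ N) :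
    Inv (x⁻¹ * a * x) N ∧ Inv (x⁻¹ * a * x)⁻¹ N ∧ a⁻¹ * (x⁻¹ * a * x) ∈ N := by
  have hN' := inv_inv_of_pow hN hp ha
  have hxi := N.inv_mem hx
  refine ⟨?_, ?_, ?_⟩
  · intro n hn
    have h1 : x * n * x⁻¹ ∈ N := N.mul_mem (N.mul_mem hx hn) hxi
    have h2 := hN _ h1
    have h3 := N.mul_mem (N.mul_mem hxi h2) hx
    have h4 : x⁻¹ * (a⁻¹ * (x * n * x⁻¹) * a) * x = (x⁻¹ * a * x)⁻¹ * n * (x⁻¹ * a * x) := by
      group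
    rwa [h4] at h3
  · intro n hn
    have h1 : x * n * x⁻¹ ∈ N := N.mul_mem (N.mul_mem hx hn) hxi
    have h2 := hN' _ h1
    have h3 := N.mul_mem (N.mul_mem hxi h2) hx
    have h4 : x⁻¹ * (a⁻¹⁻¹ * (x * n * x⁻¹) * a⁻¹) * x =
        (x⁻¹ * a * x)⁻¹⁻¹ * n * (x⁻¹ * a * x)⁻¹ := by
      group
    rwa [h4] at h3
  · have h2 := hN _ hxi
    have h3 := N.mul_mem h2 hx
    have h4 : a⁻¹ * x⁻¹ * a * x = a⁻¹ * (x⁻¹ * a * x) := by group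
    rwa [h4] at h3

theorem t : Pool.Agent.Helper52.SG.S_FTA := by
  intro G _ a N p hp hp2 ha hN hfin hT x z g h hg hh hxN hxg hzN hzh
  have hp0 := hp.pos
  have step : ∀ (u g : G), g ∈ N → u ∈ N → u ∈ Pr a g → ∀ b : G, b ∈ Pr a g → Inv b N →
      FPF b (Pr a g ⊓ N) → ∃ k ∈ N, u = b⁻¹ * k⁻¹ * b * k := by
    intro u g hg hu hug b hb hbN hbf
    obtain ⟨k, hk, hk2⟩ := h_BIJ G b (Pr a g ⊓ N) ((hfin g hg).subset (by
        intro y hy; exact hy.1)) (fun k hk => mem_inf.2 ⟨mul_mem (mul_mem (inv_mem hb)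
          (mem_inf.1 hk).1) hb, hbN k (mem_inf.1 hk).2⟩) hbf u ⟨hug, hu⟩
    exact ⟨k, hk.2, hk2⟩
  have haPr : ∀ g, a ∈ Pr a g := fun g => subset_closure (by simp)
  have hfpf : ∀ g ∈ N, FPF a (Pr a g ⊓ N) := fun g hg k hk hc => hT g hg k hk.1 hk.2 hc
  obtain ⟨x', hx'N, hx'⟩ := step x g hg hxN hxg a (haPr g) hN (hfpf g hg)
  have h2p : ¬ p ∣ 2 := by
    intro h
    have := (Nat.prime_dvd_prime_iff_eq hp Nat.prime_two).1 h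
    exact hp2 this
  have hfpf2 : FPF (a ^ 2) (Pr a h ⊓ N) := h_POW G a _ p 2 hp ha h2p (hfpf h hh)
  obtain ⟨z', hz'N, hz'⟩ := step z h hh hzN hzh (a ^ 2) (pow_mem (haPr h) 2) (inv_pow hN 2) hfpf2
  obtain ⟨y₁, hy₁⟩ : ∃ y₁, y₁ = x'⁻¹ * a * x' := ⟨_, rfl⟩
  obtain ⟨y₂, hy₂⟩ : ∃ y₂, y₂ = z'⁻¹ * a * z' := ⟨_, rfl⟩
  have e1 : y₁ = a * x := by rw [hy₁, hx']; group
  have e2 : y₂ ^ 2 = a ^ 2 * z := by
    rw [hy₂, hz', sq, sq]; group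
  obtain ⟨f1, f2, f4⟩ := conj_facts' hp0 ha hN hx'N
  obtain ⟨g1, g2, g4⟩ := conj_facts' hp0 ha hN hz'N
  rw [← hy₁] at f1 f2 f4
  rw [← hy₂] at g1 g2 g4
  -- the finite group `B`
  have hmN : z' * x'⁻¹ ∈ N := N.mul_mem hz'N (N.inv_mem hx'N)
  have hmap : (Pr a (z' * x'⁻¹)).map (MulAut.conj x'⁻¹).toMonoidHom =
      closure ({y₁, y₂} : Set G) := by
    rw [Pr, MonoidHom.map_closure]
    congr 1
    rw [Set.image_pair, hy₁, hy₂]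
    simp [mul_assoc]
  have hBfin : ((closure ({y₁, y₂} : Set G) : Subgroup G) : Set G).Finite := by
    rw [← hmap]
    exact (hfin _ hmN).image _
  obtain ⟨B, hB⟩ : ∃ B : Subgroup G, B = closure ({y₁, y₂} : Set G) := ⟨_, rfl⟩
  rw [← hB] at hBfin hmap
  have hy₁B : y₁ ∈ B := by rw [hB]; exact subset_closure (by simp)
  have hy₂B : y₂ ∈ B := by rw [hB]; exact subset_closure (by simp)
  have hA'fin : ((B ⊓ N : Subgroup G) : Set G).Finite := hBfin.subset (fun y hy => hy.1)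
  have hA2 : Inv y₁⁻¹ (B ⊓ N) := fun k hk =>
    mem_inf.2 ⟨mul_mem (mul_mem (inv_mem (inv_mem hy₁B)) (mem_inf.1 hk).1) (inv_mem hy₁B),
      f2 k (mem_inf.1 hk).2⟩
  have hAf : FPF y₁⁻¹ (B ⊓ N) := by
    intro k hk hc
    have hc1 : k * y₁ = y₁ * k := by
      calc k * y₁ = y₁ * (y₁⁻¹ * k) * y₁ := by group
        _ = y₁ * (k * y₁⁻¹) * y₁ := by rw [hc]
        _ = y₁ * k := by group
    have hk1 : k ∈ (Pr a (z' * x'⁻¹)).map (MulAut.conj x'⁻¹).toMonoidHom := by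
      rw [hmap]; exact hk.1
    obtain ⟨t, ht, hte⟩ := hk1
    have hte' : x'⁻¹ * t * x' = k := by
      rw [← hte]
      show x'⁻¹ * t * x' = x'⁻¹ * t * x'⁻¹⁻¹
      rw [inv_inv]
    have ht2 : t = x' * k * x'⁻¹ := by rw [← hte']; group
    have htN : t ∈ N := by
      rw [ht2]
      exact N.mul_mem (N.mul_mem hx'N hk.2) (N.inv_mem hx'N)
    have htc : t * a = a * t := by
      rw [ht2]
      calc x' * k * x'⁻¹ * a = x' * (k * (x'⁻¹ * a * x')) * x'⁻¹ := by group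
        _ = x' * ((x'⁻¹ * a * x') * k) * x'⁻¹ := by rw [← hy₁, hc1]
        _ = a * (x' * k * x'⁻¹) := by group
    have ht1 := hT _ hmN t ht htN htc
    rw [← hte', ht1]; group
  -- `m = y₁⁻¹ y₂`
  have hm : y₁⁻¹ * y₂ ∈ B ⊓ N := by
    refine mem_inf.2 ⟨mul_mem (inv_mem hy₁B) hy₂B, ?_⟩
    have h1 : y₁⁻¹ * y₂ = (a⁻¹ * y₁)⁻¹ * (a⁻¹ * y₂) := by group
    rw [h1]
    exact N.mul_mem (N.inv_mem f4) g4
  -- `w = y₁ y₂⁻²`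
  have hm' : y₁ * (y₁ * (y₂ ^ 2)⁻¹) ∈ B ⊓ N := by
    have h1 : y₁ * (y₁ * (y₂ ^ 2)⁻¹) =
        y₁⁻¹⁻¹ * (y₁ * (y₁⁻¹ * y₂)⁻¹ * y₁⁻¹ * (y₁⁻¹ * y₂)⁻¹ ) * y₁⁻¹ := by
      rw [sq]; group
    rw [h1]
    apply hA2
    refine mul_mem ?_ (inv_mem hm)
    have h2 := hA2 _ (inv_mem hm)
    simpa using h2
  obtain ⟨k, hk, hk2⟩ := h_BIJ G y₁⁻¹ (B ⊓ N) hA'fin hA2 hAf _ hm'
  have hw : y₁ * (y₂ ^ 2)⁻¹ = k⁻¹ * y₁⁻¹ * k := by
    have : y₁ * (y₂ ^ 2)⁻¹ = y₁⁻¹ * (y₁ * (y₁ * (y₂ ^ 2)⁻¹)) := by group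
    rw [this, hk2]; group
  refine ⟨x' * k, N.mul_mem hx'N hk.2, ?_⟩
  have hxz : x * z⁻¹ = a⁻¹ * (((x' * k)⁻¹ * a * (x' * k))⁻¹ * a) * a := by
    have h1 : x * z⁻¹ = a⁻¹ * (y₁ * (y₂ ^ 2)⁻¹) * a ^ 2 := by
      rw [e2, e1, sq]; group
    rw [h1, hw, hy₁, sq]; group
  rw [hxz]
  have h5 : (x' * k)⁻¹ * a * (x' * k) ∈ Pr a (x' * k) := subset_closure (by simp)
  exact mul_mem (mul_mem (inv_mem (haPr _)) (mul_mem (inv_mem h5) (haPr _))) (haPr _)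

end Pool.Agent.Helper5.SG.FTA
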